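import Mathlib

/-!
The best overlap of a unit vector with a subset state.
-/

open Finset

namespace Pool.Agent.MP_36f78e_lc.H19

/-- `√(k+1) - √k` -/
noncomputable def del (k : ℕ) : ℝ := √(k + 1) - √k

/-- the sum of the squares of the first `m` differences -/
noncomputable def dsum (m : ℕ) : ℝ := ∑ k ∈ range m, del k ^ 2

lemma del_mul (k : ℕ) : del k * (√(k + 1) + √k) = 1 := by
  have h1 := Real.sq_sqrt (show (0 : ℝ) ≤ k + 1 by positivity)
  have h2 := Real.sq_sqrt (show (0 : ℝ) ≤ k by positivity)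
  unfold del
  nlinarith

lemma del_pos (k : ℕ) : 0 < del k :=
  sub_pos.2 (Real.sqrt_lt_sqrt (by positivity) (by linarith))

lemma del_anti {k l : ℕ} (h : k ≤ l) : del l ≤ del k := by
  have h1 := del_mul k
  have h2 := del_mul l
  have h3 : √(k + 1 : ℝ) ≤ √(l + 1) := Real.sqrt_le_sqrt (by exact_mod_cast Nat.succ_le_succ h)
  have h4 : √(k : ℝ) ≤ √l := Real.sqrt_le_sqrt (by exact_mod_cast h)
  have h5 : 0 < √(k + 1 : ℝ) + √k := by positivity
  have h6 := del_pos l
  by_contra hc
  push Not at hc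
  nlinarith

lemma dsum_le (m : ℕ) (hm : 1 ≤ m) : dsum m ≤ 1 + Real.log m / 4 := by
  induction m, hm using Nat.le_induction with
  | base => simp [dsum, del]
  | succ m hm ih =>
    have hm0 : (0 : ℝ) < m := by exact_mod_cast hm
    have hs : 0 < √(m : ℝ) := Real.sqrt_pos.2 hm0
    have h1 := del_mul m
    have h2 := del_pos m
    have h3 := Real.le_log_one_add_of_nonneg (x := del m / √m) (by positivity)
    have h4 : 1 + del m / √m = √(m + 1) / √m := by unfold del; field_simp; ring
    have h5 : 2 * (del m / √m) / (del m / √m + 2) = 2 * del m ^ 2 := by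
      have : del m + 2 * √m = √(m + 1) + √m := by unfold del; ring
      field_simp
      rw [this]
      linarith
    rw [h4, h5, Real.log_div (by positivity) hs.ne', Real.log_sqrt (by positivity),
      Real.log_sqrt hm0.le] at h3
    rw [dsum, sum_range_succ, ← dsum]
    push_cast
    linarith

lemma le_dsum (m : ℕ) (hm : 1 ≤ m) : 1 + Real.log ((m + 1) / 2) / 4 ≤ dsum m := by
  induction m, hm using Nat.le_induction with
  | base => simp [dsum, del]
  | succ m hm ih =>
    have h1 := del_mul m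
    have h2 := del_pos m
    have h3 : √(m : ℝ) ≤ √(m + 1) := Real.sqrt_le_sqrt (by linarith)
    have h4 := Real.sq_sqrt (show (0 : ℝ) ≤ m + 1 by positivity)
    have h5 : 1 ≤ 2 * del m * √(m + 1) := by nlinarith
    have h6 : 1 ≤ 4 * del m ^ 2 * (m + 1) := by nlinarith
    have h7 : Real.log (((m + 1 : ℕ) + 1) / 2) - Real.log ((m + 1) / 2) ≤ 1 / (m + 1) := by
      rw [← Real.log_div (by positivity) (by positivity)]
      refine (Real.log_le_sub_one_of_pos (by positivity)).trans (le_of_eq ?_)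
      push_cast
      field_simp
      ring
    have h8 : 1 / (m + 1 : ℝ) ≤ 4 * del m ^ 2 := by rw [div_le_iff₀ (by positivity)]; exact h6
    rw [dsum, sum_range_succ, ← dsum]
    linarith

lemma dsum_mono {k l : ℕ} (h : k ≤ l) : dsum k ≤ dsum l :=
  sum_le_sum_of_subset_of_nonneg (range_mono h) fun _ _ _ => sq_nonneg _

lemma sq_sum_le {ι : Type*} [DecidableEq ι] (x : ι → ℝ) (v : ℝ) (A : Finset ι) :
    ∀ c, (∀ a ∈ A, c ≤ x a) → (∀ S ⊆ A, ∑ a ∈ S, x a ≤ v * √S.card) →
      ∑ a ∈ A, x a ^ 2 ≤ v ^ 2 * dsum A.card - 2 * c * (v * √A.card - ∑ a ∈ A, x a) := by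
  induction A using Finset.induction_on_min_value x with
  | empty => intro c _ _; simp [dsum]
  | insert a A ha hmin ih =>
    intro c hc hS
    have h1 := ih (x a) hmin fun S h => hS S (h.trans (subset_insert _ _))
    have h2 := hS _ subset_rfl
    have h3 := hc a (mem_insert_self _ _)
    rw [sum_insert ha, card_insert_of_notMem ha] at h2
    rw [sum_insert ha, sum_insert ha, card_insert_of_notMem ha, dsum, sum_range_succ, ← dsum]
    push_cast at h2 ⊢
    have h4 : √(A.card + 1 : ℝ) = del A.card + √A.card := by unfold del; ring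
    rw [h4] at h2 ⊢
    nlinarith [sq_nonneg (v * del A.card - x a), mul_nonneg (sub_nonneg.2 h3) (sub_nonneg.2 h2)]

lemma pos_part_le {d : ℕ} (x : Fin d → ℝ) (v : ℝ)
    (h : ∀ S : Finset (Fin d), ∑ a ∈ S, x a ≤ v * √S.card) :
    ∑ a, max (x a) 0 ^ 2 ≤ v ^ 2 * dsum d := by
  have h1 := sq_sum_le x v (univ.filter fun a => 0 ≤ x a) 0 (fun a ha => (mem_filter.1 ha).2)
    fun S _ => h S
  have h2 : ∑ a, max (x a) 0 ^ 2 = ∑ a ∈ univ.filter fun a => 0 ≤ x a, x a ^ 2 := by
    rw [sum_filter]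
    refine sum_congr rfl fun a _ => ?_
    split_ifs with ha
    · rw [max_eq_left ha]
    · rw [max_eq_right (not_le.1 ha).le]; simp
  have h3 : dsum (univ.filter fun a => 0 ≤ x a).card ≤ dsum d :=
    dsum_mono ((card_le_univ _).trans (by simp))
  rw [h2]
  nlinarith [sq_nonneg v]

lemma lower {d : ℕ} (ψ : Fin d → ℂ) (v : ℝ)
    (h : ∀ S : Finset (Fin d), ‖∑ a ∈ S, ψ a‖ ≤ v * √S.card) :
    ∑ a, ‖ψ a‖ ^ 2 ≤ 4 * (v ^ 2 * dsum d) := by
  have h1 := pos_part_le (fun a => (ψ a).re) v fun S => by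
    rw [← Complex.re_sum]; exact (Complex.re_le_norm _).trans (h S)
  have h2 := pos_part_le (fun a => -(ψ a).re) v fun S => by
    rw [sum_neg_distrib, ← Complex.re_sum]
    exact (neg_le_abs _).trans ((Complex.abs_re_le_norm _).trans (h S))
  have h3 := pos_part_le (fun a => (ψ a).im) v fun S => by
    rw [← Complex.im_sum]; exact (Complex.im_le_norm _).trans (h S)
  have h4 := pos_part_le (fun a => -(ψ a).im) v fun S => by
    rw [sum_neg_distrib, ← Complex.im_sum]
    exact (neg_le_abs _).trans ((Complex.abs_im_le_norm _).trans (h S))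
  have e : ∀ t : ℝ, max t 0 ^ 2 + max (-t) 0 ^ 2 = t ^ 2 := by
    intro t
    rcases le_total t 0 with ht | ht
    · rw [max_eq_right ht, max_eq_left (neg_nonneg.2 ht)]; ring
    · rw [max_eq_left ht, max_eq_right (neg_nonpos.2 ht)]; ring
  have h5 : ∑ a, ‖ψ a‖ ^ 2 = (∑ a, max (ψ a).re 0 ^ 2 + ∑ a, max (-(ψ a).re) 0 ^ 2) +
      (∑ a, max (ψ a).im 0 ^ 2 + ∑ a, max (-(ψ a).im) 0 ^ 2) := by
    simp only [← sum_add_distrib, e]
    refine sum_congr rfl fun a _ => ?_
    rw [Complex.sq_norm, Complex.normSq_apply]; ring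
  linarith

lemma sum_del_le (T : Finset ℕ) : ∑ k ∈ T, del k ≤ √T.card := by
  induction T using Finset.induction_on_max with
  | empty => simp
  | insert a T ha ih =>
    have hn : a ∉ T := fun h => lt_irrefl _ (ha a h)
    have h1 : T.card ≤ a := by
      simpa using card_le_card (show T ⊆ range a from fun k hk => mem_range.2 (ha k hk))
    have h2 := del_anti h1
    rw [sum_insert hn, card_insert_of_notMem hn]
    unfold del at h2 ih ⊢
    push_cast
    linarith

/-- the extremal vector before normalisation -/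
noncomputable def ext (m : ℕ) (i : ℕ) : ℂ :=
  if i < 4 * m then Complex.I ^ (i % 4) * (del (i / 4) : ℝ) else 0

lemma sum_ext (m : ℕ) : ∑ i ∈ range (4 * m), del (i / 4) ^ 2 = 4 * dsum m := by
  induction m with
  | zero => simp [dsum]
  | succ m ih =>
    rw [show 4 * (m + 1) = 4 * m + 1 + 1 + 1 + 1 by ring]
    simp only [sum_range_succ, ih, dsum]
    rw [show (4 * m) / 4 = m by omega, show (4 * m + 1) / 4 = m by omega,
      show (4 * m + 1 + 1) / 4 = m by omega, show (4 * m + 1 + 1 + 1) / 4 = m by omega]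
    ring

lemma norm_ext {d m : ℕ} (h : 4 * m ≤ d) : ∑ i : Fin d, ‖ext m i‖ ^ 2 = 4 * dsum m := by
  rw [Fin.sum_univ_eq_sum_range (fun i => ‖ext m i‖ ^ 2), ← sum_ext,
    ← sum_subset (range_mono h)]
  · refine sum_congr rfl fun i hi => ?_
    simp [ext, mem_range.1 hi]
  · intro i _ hi
    simp [ext, mt mem_range.2 hi]

lemma upper {d : ℕ} (m : ℕ) (S : Finset (Fin d)) : ‖∑ i ∈ S, ext m i‖ ≤ √S.card := by
  let c : ℕ → Finset (Fin d) := fun j => S.filter fun i => i.1 % 4 = j
  let y : ℕ → ℝ := fun j => ∑ i ∈ (c j).filter fun i => i.1 < 4 * m, del (i.1 / 4)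
  have hy0 : ∀ j, 0 ≤ y j := fun j => sum_nonneg fun i _ => (del_pos _).le
  have hy : ∀ j, y j ^ 2 ≤ (c j).card := by
    intro j
    have hinj : Set.InjOn (fun i : Fin d => i.1 / 4)
        ((c j).filter fun i => i.1 < 4 * m : Finset (Fin d)) := by
      intro a ha b hb hab
      simp only [c, coe_filter, mem_filter, Set.mem_ofPred_eq] at ha hb hab
      exact Fin.ext (by omega)
    have h1 := sum_del_le (((c j).filter fun i => i.1 < 4 * m).image fun i => i.1 / 4)
    rw [sum_image hinj, card_image_of_injOn hinj] at h1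
    have h2 : √(((c j).filter fun i => i.1 < 4 * m).card : ℝ) ≤ √(c j).card :=
      Real.sqrt_le_sqrt (by exact_mod_cast card_filter_le _ _)
    calc y j ^ 2 ≤ √(c j).card ^ 2 := pow_le_pow_left₀ (hy0 j) (h1.trans h2) 2
      _ = _ := Real.sq_sqrt (by positivity)
  have hmaps : ∀ i ∈ S, i.1 % 4 ∈ range 4 := fun i _ => mem_range.2 (Nat.mod_lt _ (by norm_num))
  have h1 : ∑ i ∈ S, ext m i = ∑ j ∈ range 4, Complex.I ^ j * (y j : ℝ) := by
    rw [← sum_fiberwise_of_maps_to hmaps]
    refine sum_congr rfl fun j _ => ?_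
    simp only [y, c, Complex.ofReal_sum, mul_sum]
    rw [sum_filter (fun i : Fin d => i.1 < 4 * m)]
    refine sum_congr rfl fun i hi => ?_
    simp only [ext, (mem_filter.1 hi).2]
  have h2 : (S.card : ℝ) = ∑ j ∈ range 4, ((c j).card : ℝ) := by
    exact_mod_cast card_eq_sum_card_fiberwise hmaps
  refine Real.le_sqrt_of_sq_le ?_
  rw [h1, h2, Complex.sq_norm, Complex.normSq_apply]
  simp [sum_range_succ, pow_succ]
  nlinarith [hy 0, hy 1, hy 2, hy 3, mul_nonneg (hy0 0) (hy0 2), mul_nonneg (hy0 1) (hy0 3)]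

end Pool.Agent.MP_36f78e_lc.H19
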